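import Mathlib
import Pool.Agent.Helper97.Prob

set_option autoImplicit false

/-!
# The width of the independence complex of a sparse random graph

For `p = 1 / (2 n)`, with probability at least `1 / 24576` (for all large `n`) the independence
complex of the binomial random graph has an antichain that is larger than `1 + ε` times its largest
layer, for a fixed `ε > 0`.
-/

open scoped Classical
open Pool.Agent.Helper97

namespace Pool.Agent.Results.MP_dfce14_pr.WidthLower

/-- The probability that the binomial random graph with edge probability `p` on `n` labelled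
vertices satisfies `Q`. -/
noncomputable def gnpProb (n : ℕ) (p : ℝ) (Q : SimpleGraph (Fin n) → Prop) : ℝ :=
  ∑ G : SimpleGraph (Fin n),
    if Q G then p ^ G.edgeSet.ncard * (1 - p) ^ (n.choose 2 - G.edgeSet.ncard) else 0

/-- The number of independent sets of size `r`. -/
noncomputable def layer {n : ℕ} (G : SimpleGraph (Fin n)) (r : ℕ) : ℕ :=
  {A : Finset (Fin n) | G.IsIndepSet (A : Set (Fin n)) ∧ A.card = r}.ncard

/-- The size of a largest layer of the independence complex. -/
noncomputable def maxLayer {n : ℕ} (G : SimpleGraph (Fin n)) : ℕ :=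
  (Finset.range (n + 1)).sup (layer G)

/-- `F` is a family of independent sets, none of which is a proper subset of another one. -/
def IsIndepAntichain {n : ℕ} (G : SimpleGraph (Fin n)) (F : Finset (Finset (Fin n))) : Prop :=
  (∀ A ∈ F, G.IsIndepSet (A : Set (Fin n))) ∧ ∀ A ∈ F, ∀ B ∈ F, ¬ A ⊂ B

/-- The width of the independence complex: the largest size of an antichain of independent
sets. -/
noncomputable def width {n : ℕ} (G : SimpleGraph (Fin n)) : ℕ :=
  (Finset.univ.filter (IsIndepAntichain G)).sup Finset.card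

/-- lower bound for the expected number of claw components when `p = 1 / (2 n)`. -/
lemma expect_ctr_half (n : ℕ) (hn : 6 ≤ n) :
    1 / 6144 * (n : ℝ) ≤ ∑ G : SimpleGraph (Fin n), wt n ((1 / 2 : ℝ) / n) G * (ctr G).card := by
  have hn0 : (0 : ℝ) < n := by
    have : 0 < n := by omega
    exact_mod_cast this
  have hn6 : (6 : ℝ) ≤ n := by exact_mod_cast hn
  have hp0 : 0 ≤ (1 / 2 : ℝ) / n := by positivity
  have hp1 : (1 / 2 : ℝ) / n ≤ 1 := by
    rw [div_le_one hn0]; linarith
  refine le_trans ?_ (expect_ctr (n := n) (by omega) _ hp0 hp1)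
  -- the binomial coefficient
  have hch : (n : ℝ) ^ 3 / 48 ≤ ((n - 1).choose 3 : ℝ) := by
    obtain ⟨m, rfl⟩ : ∃ m, n = m + 4 := ⟨n - 4, by omega⟩
    have h1 : (m + 4 - 1).choose 3 * 6 = (m + 3) * (m + 2) * (m + 1) := by
      have e : m + 4 - 1 = m + 3 := by omega
      rw [e]
      have := Nat.descFactorial_eq_factorial_mul_choose (m + 3) 3
      simp [Nat.descFactorial, Nat.factorial] at this
      linarith
    have h2 : ((m + 4 - 1).choose 3 : ℝ) * 6 = (m + 3) * (m + 2) * (m + 1) := by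
      exact_mod_cast h1
    have hm : (2 : ℝ) ≤ m := by
      have : 2 ≤ m := by omega
      exact_mod_cast this
    have h3 : ((m + 4 : ℕ) : ℝ) ^ 3 ≤ 8 * ((m + 3) * (m + 2) * (m + 1)) := by
      push_cast
      have a1 : (m : ℝ) + 4 ≤ 2 * (m + 3) := by linarith
      have a2 : (m : ℝ) + 4 ≤ 2 * (m + 2) := by linarith
      have a3 : (m : ℝ) + 4 ≤ 2 * (m + 1) := by linarith
      calc ((m : ℝ) + 4) ^ 3 = (m + 4) * (m + 4) * (m + 4) := by ring
        _ ≤ (2 * (m + 3)) * (2 * (m + 2)) * (2 * (m + 1)) := by gcongr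
        _ = _ := by ring
    linarith
  have hpow : 1 / 16 ≤ (1 - (1 / 2 : ℝ) / n) ^ (4 * n) := by
    have h1 : 1 + (n : ℝ) * (-((1 / 2 : ℝ) / n)) ≤ (1 + (-((1 / 2 : ℝ) / n))) ^ n :=
      one_add_mul_le_pow (by linarith) n
    have h2 : (1 : ℝ) / 2 ≤ (1 - (1 / 2 : ℝ) / n) ^ n := by
      have : (n : ℝ) * (-((1 / 2 : ℝ) / n)) = - (1 / 2) := by field_simp
      rw [this] at h1
      rw [sub_eq_add_neg]
      linarith
    calc (1 : ℝ) / 16 = (1 / 2) ^ 4 := by norm_num
      _ ≤ ((1 - (1 / 2 : ℝ) / n) ^ n) ^ 4 := by gcongr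
      _ = _ := by rw [← pow_mul, mul_comm n 4]
  calc 1 / 6144 * (n : ℝ) = n * ((n : ℝ) ^ 3 / 48) * ((1 / 2 : ℝ) / n) ^ 3 * (1 / 16) := by
        field_simp; norm_num
    _ ≤ _ := by gcongr

/-- with probability bounded below there are linearly many claw components and linearly many
connected pairs. -/
lemma prob_good (n : ℕ) (hn : 6 ≤ n) :
    1 / 24576 ≤ ∑ G : SimpleGraph (Fin n),
      if (1 / 12288 * (n : ℝ) ≤ (ctr G).card ∧ ((conn G).card : ℝ) ≤ 49152 * n) then
        wt n ((1 / 2 : ℝ) / n) G else 0 := by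
  have hn0 : (0 : ℝ) < n := by
    have : 0 < n := by omega
    exact_mod_cast this
  have hn6 : (6 : ℝ) ≤ n := by exact_mod_cast hn
  have hp0 : 0 ≤ (1 / 2 : ℝ) / n := by positivity
  have hp1 : (1 / 2 : ℝ) / n ≤ 1 := by
    rw [div_le_one hn0]; linarith
  have hw := fun G : SimpleGraph (Fin n) => wt_nonneg (n := n) hp0 hp1 G
  have h1 := expect_ctr_half n hn
  have h2 := expect_conn (n := n) (by omega) (1 / 2) (by norm_num) le_rfl
  have h3 := sum_wt (n := n) ((1 / 2 : ℝ) / n)
  have key : ∀ G : SimpleGraph (Fin n),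
      wt n ((1 / 2 : ℝ) / n) G * (ctr G).card ≤ 1 / 12288 * n * wt n ((1 / 2 : ℝ) / n) G
        + n * (if (1 / 12288 * (n : ℝ) ≤ (ctr G).card ∧ ((conn G).card : ℝ) ≤ 49152 * n) then
        wt n ((1 / 2 : ℝ) / n) G else 0)
        + 1 / 49152 * (wt n ((1 / 2 : ℝ) / n) G * (conn G).card) := by
    intro G
    have hcard : ((ctr G).card : ℝ) ≤ n := by
      have := Finset.card_le_univ (ctr G)
      rw [Fintype.card_fin] at this
      exact_mod_cast this
    have hwG := hw G
    have hcc : (0 : ℝ) ≤ (conn G).card := by positivity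
    split_ifs with h
    · have a1 : wt n ((1 / 2 : ℝ) / n) G * (ctr G).card ≤ wt n ((1 / 2 : ℝ) / n) G * n :=
        mul_le_mul_of_nonneg_left hcard hwG
      have a2 : 0 ≤ 1 / 12288 * n * wt n ((1 / 2 : ℝ) / n) G := by positivity
      have a3 : 0 ≤ 1 / 49152 * (wt n ((1 / 2 : ℝ) / n) G * (conn G).card) := by positivity
      linarith
    · by_cases hA : 1 / 12288 * (n : ℝ) ≤ (ctr G).card
      · have hB : 49152 * (n : ℝ) < (conn G).card := by
          by_contra hcon
          exact h ⟨hA, not_lt.1 hcon⟩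
        have a1 : wt n ((1 / 2 : ℝ) / n) G * (ctr G).card ≤ wt n ((1 / 2 : ℝ) / n) G * n :=
          mul_le_mul_of_nonneg_left hcard hwG
        have a2 : 0 ≤ 1 / 12288 * n * wt n ((1 / 2 : ℝ) / n) G := by positivity
        have a3 : wt n ((1 / 2 : ℝ) / n) G * (49152 * n)
            ≤ wt n ((1 / 2 : ℝ) / n) G * (conn G).card :=
          mul_le_mul_of_nonneg_left hB.le hwG
        linarith
      · have a1 : wt n ((1 / 2 : ℝ) / n) G * (ctr G).card
            ≤ wt n ((1 / 2 : ℝ) / n) G * (1 / 12288 * n) :=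
          mul_le_mul_of_nonneg_left (not_le.1 hA).le hwG
        have a3 : 0 ≤ 1 / 49152 * (wt n ((1 / 2 : ℝ) / n) G * (conn G).card) := by positivity
        linarith
  have h4 := Finset.sum_le_sum (s := Finset.univ) (fun G _ => key G)
  rw [Finset.sum_add_distrib, Finset.sum_add_distrib, ← Finset.mul_sum, ← Finset.mul_sum,
    ← Finset.mul_sum, h3] at h4
  have h5 : (n : ℝ) * (1 / 24576) ≤ n * ∑ G : SimpleGraph (Fin n),
      if (1 / 12288 * (n : ℝ) ≤ (ctr G).card ∧ ((conn G).card : ℝ) ≤ 49152 * n) then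
        wt n ((1 / 2 : ℝ) / n) G else 0 := by linarith
  exact le_of_mul_le_mul_left h5 hn0

/-- For the edge probability `1 / (2 n)`, with probability at least `1 / 24576` the width exceeds
`1 + ε` times the largest layer. -/
theorem result : ∃ ε : ℝ, 0 < ε ∧ ∃ n0 : ℕ, ∀ n : ℕ, n0 ≤ n →
    1 / 24576 ≤ gnpProb n (1 / 2 / n)
      (fun G => (1 + ε) * (maxLayer G : ℝ) < (width G : ℝ)) := by
  obtain ⟨ε, hε, n0, hdet⟩ := Pool.Agent.Helper97.det (1 / 12288) 49152 (by norm_num) (by norm_num)
  refine ⟨ε, hε, max n0 6, fun n hn => ?_⟩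
  have hn1 : n0 ≤ n := (le_max_left _ _).trans hn
  have hn6 : 6 ≤ n := (le_max_right _ _).trans hn
  have hn0 : (0 : ℝ) < n := by
    have : 0 < n := by omega
    exact_mod_cast this
  have hn6r : (6 : ℝ) ≤ n := by exact_mod_cast hn6
  have hp0 : 0 ≤ (1 / 2 : ℝ) / n := by positivity
  have hp1 : (1 / 2 : ℝ) / n ≤ 1 := by
    rw [div_le_one hn0]; linarith
  refine (prob_good n hn6).trans (Finset.sum_le_sum fun G _ => ?_)
  have hw := wt_nonneg (n := n) hp0 hp1 G
  by_cases hg : (1 / 12288 * (n : ℝ) ≤ (ctr G).card ∧ ((conn G).card : ℝ) ≤ 49152 * n)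
  · rw [if_pos hg, if_pos]
    · exact le_rfl
    · obtain ⟨F, hF1, hF2, hF3⟩ := hdet n hn1 G hg.1 hg.2
      refine lt_of_lt_of_le hF3 ?_
      have hF : F ∈ Finset.univ.filter (IsIndepAntichain G) := by
        rw [Finset.mem_filter]
        refine ⟨Finset.mem_univ _, hF1, fun A hA B hB hAB => ?_⟩
        exact hF2 hA hB hAB.ne hAB.subset
      exact_mod_cast Finset.le_sup (f := Finset.card) hF
  · rw [if_neg hg]
    split_ifs
    · exact hw
    · exact le_rfl

end Pool.Agent.Results.MP_dfce14_pr.WidthLower
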